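import Pool.Agent.R657.UG.A
import Pool.Agent.R657.UG.B
import Pool.Agent.R657.UG.C
import Pool.Agent.R657.UG.D
import Pool.Agent.R657.UG.E1
import Pool.Agent.R657.UG.E2
import Pool.Agent.R657.UG.F
import Pool.Agent.R657.UG.Final

/-!
# MP_c93b6d_al, Q1 in full: the answer is YES

For every locally compact Hausdorff abelian group `X` and every index set `I` the three groups
`F_0^I(X)`, `F_∞^I(X)`, `F^I(X)` (null families, families with precompact set of values, all families,
with the uniform topology) are Pontryagin reflexive.

All objects of the statement are defined in this file.  Outline: (1) Pontryagin duality for locally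
compact abelian groups from lattices and averaging; (2) characters of the group of families are
approximated, uniformly on compact sets, by finite products of characters of coordinates, which gives
surjectivity of the evaluation map; (3) compact sets of characters are equicontinuous: a counterexample
would live on a null sequence after lifting modulo a compact subgroup, and null sequences lift because
`c_0`-type groups of families in the circle are divisible, hence injective; (4) a group with a reflexive
open subgroup is reflexive.
-/

set_option autoImplicit false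

namespace Pool.Agent.Results.MP_c93b6d_al.AllReflexive

open Topology Set

universe u v

/-- `G` is (Pontryagin) reflexive: the evaluation map `g ↦ (χ ↦ χ g)` is an isomorphism of topological
groups from `G` onto its second dual.  The dual of `G` is the group `G →ₜ* Circle` of continuous
characters with the compact-open topology (Mathlib's topology on continuous homomorphisms). -/
def Reflexive (G : Type u) [CommGroup G] [TopologicalSpace G] : Prop :=
  ∃ e : G ≃ₜ* ((G →ₜ* Circle) →ₜ* Circle), ∀ (g : G) (χ : G →ₜ* Circle), e g χ = χ g

/-- The group `X ^ I` of all families (the underlying group of `F^I(X)`). -/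
def AllFam (X : Type u) (I : Type v) : Type (max u v) := I → X

instance (X : Type u) (I : Type v) [CommGroup X] : CommGroup (AllFam X I) :=
  inferInstanceAs (CommGroup (I → X))

/-- The uniform topology on `X ^ I`: the group topology for which the sets `U ^ I`, `U` a neighbourhood
of `1` in `X`, form a base at `1`.  A set `s` is open if for every `f ∈ s` there is a neighbourhood `U`
of `1` with `f * U ^ I ⊆ s`. -/
instance (X : Type u) (I : Type v) [CommGroup X] [TopologicalSpace X] :
    TopologicalSpace (AllFam X I) where
  IsOpen s := ∀ f ∈ s, ∃ U ∈ 𝓝 (1 : X), ∀ g : AllFam X I, (∀ i, g i / f i ∈ U) → g ∈ s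
  isOpen_univ := fun _ _ => ⟨univ, Filter.univ_mem, fun _ _ => mem_univ _⟩
  isOpen_inter := by
    rintro s t hs ht f ⟨hf1, hf2⟩
    obtain ⟨U, hU, h1⟩ := hs f hf1
    obtain ⟨V, hV, h2⟩ := ht f hf2
    exact ⟨U ∩ V, Filter.inter_mem hU hV,
      fun g hg => ⟨h1 g fun i => (hg i).1, h2 g fun i => (hg i).2⟩⟩
  isOpen_sUnion := by
    rintro S hS f ⟨s, hs, hf⟩
    obtain ⟨U, hU, h⟩ := hS s hs f hf
    exact ⟨U, hU, fun g hg => ⟨s, hs, h g hg⟩⟩

/-- `F_∞^I(X)`: the families whose set of values is precompact (for every neighbourhood `U` of `1` the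
values are covered by finitely many translates of `U`), with the topology induced from `X ^ I`. -/
def PrecompactFam (X : Type u) (I : Type v) [CommGroup X] [TopologicalSpace X]
    [IsTopologicalGroup X] : Subgroup (AllFam X I) where
  carrier := {f | ∀ U ∈ 𝓝 (1 : X), ∃ t : Set X, t.Finite ∧ ∀ i, ∃ y ∈ t, f i / y ∈ U}
  mul_mem' := (Pool.Agent.R657.UG.FInf X I).mul_mem'
  one_mem' := (Pool.Agent.R657.UG.FInf X I).one_mem'
  inv_mem' := (Pool.Agent.R657.UG.FInf X I).inv_mem'

/-- `F_0^I(X)`: the families with `f i ∈ U` for all but finitely many `i`, for every neighbourhood `U`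
of `1`, with the topology induced from `X ^ I`. -/
def NullFam (X : Type u) (I : Type v) [CommGroup X] [TopologicalSpace X]
    [IsTopologicalGroup X] : Subgroup (AllFam X I) where
  carrier := {f | ∀ U ∈ 𝓝 (1 : X), {i | f i ∉ U}.Finite}
  mul_mem' := (Pool.Agent.R657.UG.FZero X I).mul_mem'
  one_mem' := (Pool.Agent.R657.UG.FZero X I).one_mem'
  inv_mem' := (Pool.Agent.R657.UG.FZero X I).inv_mem'

/-- **For every LCA group `X` and every (infinite) set `I` the groups `F_0^I(X)`, `F_∞^I(X)` and
`F^I(X)` are reflexive.** -/
theorem result (X : Type u) [CommGroup X] [TopologicalSpace X] [IsTopologicalGroup X]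
    [LocallyCompactSpace X] [T2Space X] (I : Type v) :
    Reflexive (NullFam X I) ∧ Reflexive (PrecompactFam X I) ∧ Reflexive (AllFam X I) :=
  Pool.Agent.R657.UG.main Pool.Agent.R657.UG.t_Lat
    (Pool.Agent.R657.UG.t_DualLat Pool.Agent.R657.UG.t_All Pool.Agent.R657.UG.t_CD
      Pool.Agent.R657.UG.t_Avg)
    (Pool.Agent.R657.UG.t_Open (Pool.Agent.R657.UG.t_OpenSurj Pool.Agent.R657.UG.t_All))
    (Pool.Agent.R657.UG.t_Open (Pool.Agent.R657.UG.t_OpenSurj Pool.Agent.R657.UG.t_All))
    (Pool.Agent.R657.UG.t_Lift Pool.Agent.R657.UG.t_CD) X I

end Pool.Agent.Results.MP_c93b6d_al.AllReflexive
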